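import Mathlib

/-!
# EF1, Pareto optimality and balancedness together can be impossible

Two agents, eight goods, strictly positive additive utilities.  No balanced allocation is both
EF1 and Pareto optimal, so no allocation is EF1 and Pareto optimal and EF1 with respect to the
constant reference valuation.
-/

set_option autoImplicit false

namespace Pool.Agent.Results.MP_e74e46_co.NoBalanced

variable {n m : ℕ}

/-- The bundle of agent `i` in the allocation `A` (which sends each good to its owner). -/
def bundle (A : Fin m → Fin n) (i : Fin n) : Finset (Fin m) := Finset.univ.filter fun g => A g = i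

/-- The additive value of a set of goods. -/
def value (w : Fin m → ℝ) (S : Finset (Fin m)) : ℝ := ∑ g ∈ S, w g

/-- Envy-freeness up to one good with respect to the profile `w` of additive valuations. -/
def EF1 (w : Fin n → Fin m → ℝ) (A : Fin m → Fin n) : Prop :=
  ∀ i j, bundle A j = ∅ ∨
    ∃ g ∈ bundle A j, value (w i) ((bundle A j).erase g) ≤ value (w i) (bundle A i)

/-- Pareto optimality among all allocations. -/
def ParetoOptimal (w : Fin n → Fin m → ℝ) (A : Fin m → Fin n) : Prop :=
  ¬ ∃ B : Fin m → Fin n, (∀ i, value (w i) (bundle A i) ≤ value (w i) (bundle B i)) ∧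
    ∃ i, value (w i) (bundle A i) < value (w i) (bundle B i)

/-- All bundles have `⌊m/n⌋` or `⌈m/n⌉` goods. -/
def Balanced (A : Fin m → Fin n) : Prop :=
  ∀ i, (bundle A i).card = m / n ∨ (bundle A i).card = (m + n - 1) / n

/-! ### The instance -/

/-- The utilities of the two agents. -/
def util : Fin 2 → Fin 8 → ℕ := ![![1, 2, 2, 2, 12, 5, 9, 1], ![6, 7, 6, 7, 10, 12, 11, 6]]

/-- The value of the part of agent `i`, as a natural number. -/
def part (w : Fin 8 → ℕ) (A : Fin 8 → Fin 2) (i : Fin 2) : ℕ :=
  (if A 0 = i then w 0 else 0) + (if A 1 = i then w 1 else 0) + (if A 2 = i then w 2 else 0) +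
  (if A 3 = i then w 3 else 0) + (if A 4 = i then w 4 else 0) + (if A 5 = i then w 5 else 0) +
  (if A 6 = i then w 6 else 0) + (if A 7 = i then w 7 else 0)

theorem value_eq (w : Fin 8 → ℕ) (A : Fin 8 → Fin 2) (i : Fin 2) :
    value (fun g => (w g : ℝ)) (bundle A i) = (part w A i : ℝ) := by
  unfold value bundle part
  rw [Finset.sum_filter, Fin.sum_univ_eight]
  push_cast
  rfl

theorem card_eq (A : Fin 8 → Fin 2) (i : Fin 2) :
    (bundle A i).card = part (fun _ => 1) A i := by
  unfold bundle part
  rw [Finset.card_filter, Fin.sum_univ_eight]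

theorem value_erase (w : Fin 8 → ℕ) (A : Fin 8 → Fin 2) (j : Fin 2) {g : Fin 8} (hg : A g = j) :
    value (fun g => (w g : ℝ)) ((bundle A j).erase g) = (part w A j : ℝ) - w g := by
  rw [← value_eq]
  unfold value
  rw [Finset.sum_erase_eq_sub]
  unfold bundle
  simp [hg]

/-- EF1 in terms of natural numbers (for two agents and nonempty bundles). -/
def ef (w : Fin 8 → ℕ) (A : Fin 8 → Fin 2) (i j : Fin 2) : Bool :=
  (part (fun _ => 1) A j == 0) ||
    (((A 0 == j) && part w A j ≤ part w A i + w 0) || ((A 1 == j) && part w A j ≤ part w A i + w 1) ||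
    ((A 2 == j) && part w A j ≤ part w A i + w 2) || ((A 3 == j) && part w A j ≤ part w A i + w 3) ||
    ((A 4 == j) && part w A j ≤ part w A i + w 4) || ((A 5 == j) && part w A j ≤ part w A i + w 5) ||
    ((A 6 == j) && part w A j ≤ part w A i + w 6) || ((A 7 == j) && part w A j ≤ part w A i + w 7))

theorem ef_of {w : Fin 2 → Fin 8 → ℕ} {A : Fin 8 → Fin 2}
    (h : EF1 (fun i g => (w i g : ℝ)) A) (i j : Fin 2) : ef (w i) A i j = true := by
  unfold ef
  rcases h i j with h | ⟨g, hg, h⟩
  · have : part (fun _ => 1) A j = 0 := by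
      rw [← card_eq, h, Finset.card_empty]
    rw [this]
    rfl
  · have hgj : A g = j := by
      unfold bundle at hg
      simpa using hg
    rw [value_erase (w i) A j hgj, value_eq] at h
    have h' : part (w i) A j ≤ part (w i) A i + w i g := by
      have : (part (w i) A j : ℝ) ≤ (part (w i) A i : ℝ) + (w i g : ℝ) := by linarith
      exact_mod_cast this
    rw [Bool.or_eq_true]
    right
    fin_cases g <;> simp_all

/-- Two allocations that dominate all balanced EF1 allocations. -/
def dom : Bool → Fin 8 → Fin 2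
  | true => ![1, 0, 1, 1, 0, 1, 0, 1]
  | false => ![1, 1, 1, 1, 0, 0, 0, 1]

theorem check : ∀ A : Fin 8 → Fin 2,
    (ef (util 0) A 0 0 && ef (util 0) A 0 1 && ef (util 1) A 1 0 && ef (util 1) A 1 1 &&
      (part (fun _ => 1) A 0 == 4)) = true →
    ∃ b, (part (util 0) A 0 ≤ part (util 0) (dom b) 0 ∧ part (util 1) A 1 ≤ part (util 1) (dom b) 1) ∧
      (part (util 0) A 0 < part (util 0) (dom b) 0 ∨ part (util 1) A 1 < part (util 1) (dom b) 1) := by
  decide +kernel

theorem total (A : Fin 8 → Fin 2) : part (fun _ => 1) A 0 + part (fun _ => 1) A 1 = 8 := by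
  have key : ∀ x : Fin 2, (if x = 0 then 1 else 0) + (if x = 1 then 1 else 0) = 1 := by decide
  unfold part
  dsimp only
  have := key (A 0)
  have := key (A 1)
  have := key (A 2)
  have := key (A 3)
  have := key (A 4)
  have := key (A 5)
  have := key (A 6)
  have := key (A 7)
  omega

theorem not_pareto {A : Fin 8 → Fin 2} (h1 : EF1 (fun i g => (util i g : ℝ)) A)
    (h4 : (bundle A 0).card = 4) : ¬ ParetoOptimal (fun i g => (util i g : ℝ)) A := by
  obtain ⟨b, ⟨h5, h6⟩, h7⟩ := check A (by
    rw [ef_of h1, ef_of h1, ef_of h1, ef_of h1, ← card_eq, h4]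
    rfl)
  intro hpo
  apply hpo
  refine ⟨dom b, ?_, ?_⟩
  · intro i
    rw [value_eq, value_eq]
    fin_cases i
    · exact_mod_cast h5
    · exact_mod_cast h6
  · rcases h7 with h7 | h7
    · refine ⟨0, ?_⟩
      rw [value_eq, value_eq]
      exact_mod_cast h7
    · refine ⟨1, ?_⟩
      rw [value_eq, value_eq]
      exact_mod_cast h7

/-- **An instance with positive utilities in which no balanced allocation is EF1 and Pareto
optimal.**  Also, no EF1 and Pareto optimal allocation is EF1 for the constant reference
valuation `1`. -/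
theorem result : ∃ (n m : ℕ) (u : Fin n → Fin m → ℝ), 2 ≤ n ∧ (∀ i g, 0 < u i g) ∧
    ∀ A : Fin m → Fin n, EF1 u A → ParetoOptimal u A →
      ¬ Balanced A ∧ ¬ EF1 (fun _ _ => 1) A := by
  refine ⟨2, 8, fun i g => (util i g : ℝ), le_rfl, ?_, ?_⟩
  · have : ∀ i g, 0 < util i g := by decide
    intro i g
    have h := this i g
    show (0 : ℝ) < (util i g : ℝ)
    exact_mod_cast h
  · intro A h1 h2
    constructor
    · intro hb
      refine not_pareto h1 ?_ h2
      have := hb 0
      simpa using this
    · intro h3
      refine not_pareto h1 ?_ h2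
      have h3' : EF1 (fun (_ : Fin 2) (_ : Fin 8) => ((1 : ℕ) : ℝ)) A := by
        simpa using h3
      have e1 := ef_of (w := fun _ _ => 1) h3' 0 1
      have e2 := ef_of (w := fun _ _ => 1) h3' 1 0
      have ht := total A
      rw [card_eq]
      unfold ef at e1 e2
      simp only [Bool.or_eq_true, Bool.and_eq_true, beq_iff_eq, decide_eq_true_eq] at e1 e2
      omega

end Pool.Agent.Results.MP_e74e46_co.NoBalanced
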